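import Pool.Agent.TH289.K.Def
import Pool.Agent.W964.LieExp.InvDim
set_option autoImplicit false
open Filter Topology Set Metric

namespace Pool.Agent.TH553.K289

section
variable {E : Type*} [NormedAddCommGroup E] [NormedSpace ℝ E]
    [FiniteDimensional ℝ E] {M : Type*} [TopologicalSpace M] [ChartedSpace E M]
    {E' : Type*} [NormedAddCommGroup E'] [NormedSpace ℝ E'] [FiniteDimensional ℝ E']
    {M' : Type*} [TopologicalSpace M'] [ChartedSpace E' M']

/-- invariance of domain for maps between manifolds -/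
theorem image_nhds (hdim : Module.finrank ℝ E' ≤ Module.finrank ℝ E) {h : M → M'}
    (hc : Continuous h) {x : M} {U : Set M} (hU : U ∈ 𝓝 x) (hinj : InjOn h U) {W : Set M}
    (hW : W ∈ 𝓝 x) : h '' W ∈ 𝓝 (h x) := by
  obtain ⟨e, he⟩ : ∃ e, e = chartAt E x := ⟨_, rfl⟩
  obtain ⟨e', he'⟩ : ∃ e', e' = chartAt E' (h x) := ⟨_, rfl⟩
  have hxe : x ∈ e.source := by rw [he]; exact mem_chart_source E x
  have hxe' : h x ∈ e'.source := by rw [he']; exact mem_chart_source E' (h x)
  obtain ⟨S, hS⟩ : ∃ S, S = W ∩ U ∩ h ⁻¹' e'.source := ⟨_, rfl⟩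
  have hSx : S ∈ 𝓝 x := by
    rw [hS]
    exact inter_mem (inter_mem hW hU) (hc.continuousAt.preimage_mem_nhds
      (e'.open_source.mem_nhds hxe'))
  have hSU : S ⊆ U := fun m hm => by rw [hS] at hm; exact hm.1.2
  have hSW : S ⊆ W := fun m hm => by rw [hS] at hm; exact hm.1.1
  have hSe : ∀ m ∈ S, h m ∈ e'.source := fun m hm => by rw [hS] at hm; exact hm.2
  have hA : e.target ∩ e.symm ⁻¹' S ∈ 𝓝 (e x) := by
    refine inter_mem (e.open_target.mem_nhds (e.map_source hxe)) ?_
    have h1 : ContinuousAt e.symm (e x) := e.continuousAt_symm (e.map_source hxe)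
    apply h1.preimage_mem_nhds
    rw [e.left_inv hxe]
    exact hSx
  have hcont : ContinuousOn (fun v => e' (h (e.symm v))) (e.target ∩ e.symm ⁻¹' S) := by
    refine e'.continuousOn.comp (t := e'.source) ?_ ?_
    · exact hc.comp_continuousOn (e.symm.continuousOn.mono inter_subset_left)
    · intro v hv; exact hSe _ hv.2
  have hinj' : InjOn (fun v => e' (h (e.symm v))) (e.target ∩ e.symm ⁻¹' S) := by
    intro a ha b hb hab
    have h1 : h (e.symm a) = h (e.symm b) := e'.injOn (hSe _ ha.2) (hSe _ hb.2) hab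
    have h2 := hinj (hSU ha.2) (hSU hb.2) h1
    exact e.symm.injOn ha.1 hb.1 h2
  have hdim' : Module.finrank ℝ E ≤ Module.finrank ℝ E' := by
    refine Pool.Agent.W964.LieExp.finrank_le_of_injOn (interior (e.target ∩ e.symm ⁻¹' S))
      isOpen_interior (e x) (mem_interior_iff_mem_nhds.2 hA) _ (hcont.mono interior_subset)
      (hinj'.mono interior_subset)
  obtain ⟨n, hn⟩ : ∃ n, n = Module.finrank ℝ E := ⟨_, rfl⟩
  have hn' : Module.finrank ℝ E' = n := by rw [hn]; exact le_antisymm hdim hdim'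
  have hEn : Module.finrank ℝ (EuclideanSpace ℝ (Fin n)) = n := by simp
  obtain ⟨L⟩ : Nonempty (E ≃L[ℝ] EuclideanSpace ℝ (Fin n)) :=
    ⟨ContinuousLinearEquiv.ofFinrankEq (by rw [hEn, hn])⟩
  obtain ⟨L'⟩ : Nonempty (E' ≃L[ℝ] EuclideanSpace ℝ (Fin n)) :=
    ⟨ContinuousLinearEquiv.ofFinrankEq (by rw [hEn, hn'])⟩
  have hB : L.symm ⁻¹' (e.target ∩ e.symm ⁻¹' S) ∈ 𝓝 (L (e x)) := by
    apply L.symm.continuous.continuousAt.preimage_mem_nhds
    rw [L.symm_apply_apply]
    exact hA
  obtain ⟨r, hr, hball⟩ := Metric.nhds_basis_closedBall.mem_iff.1 hB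
  have hβ := Pool.Agent.Helper514.IoD.image_mem_nhds
    (fun v => L' (e' (h (e.symm (L.symm v))))) (L (e x)) r hr
    (by
      apply L'.continuous.comp_continuousOn
      exact hcont.comp L.symm.continuous.continuousOn hball)
    (by
      intro a ha b hb hab
      exact L.symm.injective (hinj' (hball ha) (hball hb) (L'.injective hab)))
  simp only [L.symm_apply_apply, e.left_inv hxe] at hβ
  have h2 : (fun y => L' (e' y)) ⁻¹' ((fun v => L' (e' (h (e.symm (L.symm v))))) ''
      closedBall (L (e x)) r) ∈ 𝓝 (h x) := by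
    have h3 : ContinuousAt (fun y => L' (e' y)) (h x) :=
      L'.continuous.continuousAt.comp (e'.continuousAt hxe')
    exact h3.preimage_mem_nhds hβ
  refine Filter.mem_of_superset (inter_mem h2 (e'.open_source.mem_nhds hxe')) ?_
  rintro y ⟨⟨v, hv, hvy⟩, hy⟩
  have hvA := hball hv
  refine ⟨e.symm (L.symm v), hSW hvA.2, ?_⟩
  exact e'.injOn (hSe _ hvA.2) hy (L'.injective hvy)

end

theorem covering_of_locInj {E : Type*} [NormedAddCommGroup E] [NormedSpace ℝ E]
    [FiniteDimensional ℝ E] {M : Type*} [TopologicalSpace M] [T2Space M] [CompactSpace M]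
    [Nonempty M] [ChartedSpace E M]
    {E' : Type*} [NormedAddCommGroup E'] [NormedSpace ℝ E'] [FiniteDimensional ℝ E']
    {M' : Type*} [TopologicalSpace M'] [T2Space M'] [ConnectedSpace M'] [ChartedSpace E' M']
    (hdim : Module.finrank ℝ E' ≤ Module.finrank ℝ E) {h : M → M'} (hc : Continuous h)
    (hloc : ∀ x, ∃ U ∈ 𝓝 x, InjOn h U) :
    IsCoveringMap h ∧ Function.Surjective h ∧ ∀ y, (h ⁻¹' {y}).Finite := by
  have hopen : IsOpenMap h := by
    rw [isOpenMap_iff_nhds_le]
    intro x s hs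
    rw [Filter.mem_map] at hs
    obtain ⟨U, hU, hi⟩ := hloc x
    refine Filter.mem_of_superset (image_nhds hdim hc hU hi hs) ?_
    exact image_preimage_subset h s
  have hlh : IsLocalHomeomorph h := by
    rw [isLocalHomeomorph_iff_isOpenEmbedding_restrict]
    intro x
    obtain ⟨U, hU, hi⟩ := hloc x
    refine ⟨interior U, interior_mem_nhds.2 hU, ?_⟩
    refine IsOpenEmbedding.of_continuous_injective_isOpenMap
      (hc.comp continuous_subtype_val) ?_ (hopen.domRestrict isOpen_interior)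
    exact (hi.mono interior_subset).injective
  refine ⟨isLocalHomeomorph_iff_isCoveringMap.1 hlh, ?_, fun y => ?_⟩
  · have h1 : IsClopen (range h) := ⟨(isCompact_range hc).isClosed, hopen.isOpen_range⟩
    exact range_eq_univ.1 (h1.eq_univ (range_nonempty h))
  · have hcl : IsCompact (h ⁻¹' {y}) := (isClosed_singleton.preimage hc).isCompact
    choose U hU hi using hloc
    obtain ⟨t, ht, hcov⟩ := hcl.elim_nhds_subcover U (fun x _ => hU x)
    refine t.finite_toSet.subset fun p hp => ?_
    obtain ⟨x, hx, hpx⟩ := mem_iUnion₂.1 (hcov hp)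
    have h1 : h p = h x := by
      have h2 : h x = y := ht x hx
      have h3 : h p = y := hp
      rw [h2, h3]
    rw [hi x hpx (mem_of_mem_nhds (hU x)) h1]
    exact hx

end Pool.Agent.TH553.K289
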